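import Pool.Agent.Q287.MG.Final

set_option autoImplicit false

/-!
# If a multitype branching process has finitely many fixed points, they are extinction vectors

The definitions are in `Pool.Agent.Q287.MG.Defs`. For offspring laws `p : X → PMF (X →₀ ℕ)`:
`Q287.MG.S p` is the set of fixed points of the generating function `Q287.MG.G p` in `[0,1]^X`,
and `Q287.MG.Ext p` is the set of the extinction vectors `Q287.MG.q p A`, `A ⊆ X`.
-/

namespace Pool.Agent.Results.MP_f48e0c_pr.FiniteFixedPoints

open Q287.MG

universe u

/-- **Theorem.** For every multitype Galton–Watson process with countably many types (no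
irreducibility is assumed): if the set `S` of fixed points is finite then `S = Ext`; moreover each
fixed point `s` is then the extinction vector `q(B)` of some finite set `B` of types with
`s_x < 1`. In particular `|Ext| < |S| < ∞` is impossible. -/
theorem result :
    (∀ (X : Type u) [Countable X] (p : X → PMF (X →₀ ℕ)), (S p).Finite →
      S p = Ext p ∧ ∀ s ∈ S p, ∃ B : Finset X, (∀ x ∈ B, s x < 1) ∧ s = q p (B : Set X)) ∧
    ¬ ∃ (X : Type u) (_ : Countable X) (p : X → PMF (X →₀ ℕ)),
      (Ext p).encard < (S p).encard ∧ (S p).encard < ⊤ := by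
  refine ⟨fun X _ p hfin => ⟨S_eq_Ext p hfin, fun s hs => eq_q_finite p hfin hs⟩, ?_⟩
  rintro ⟨X, hX, p, h1, h2⟩
  have h3 : (S p).Finite := Set.encard_lt_top_iff.1 h2
  rw [S_eq_Ext p h3] at h1
  exact lt_irrefl _ h1

end Pool.Agent.Results.MP_f48e0c_pr.FiniteFixedPoints
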